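import Pool.Agent.Work.MP_0ea01d_co.Det.All
import Pool.Agent.Work.MP_0ea01d_co.Det.Dual

set_option autoImplicit false

namespace Pool.Agent.Results.MP_0ea01d_co.Determination

open Pool.Agent.Work.MP_0ea01d_co

/-- `T(n,l) = C(n,l+1) - (n-l-1)⌈(n-l)/2⌉`. -/
def T (n l : ℕ) : ℤ := (n.choose (l + 1) : ℤ) - ((n : ℤ) - l - 1) * ⌈((n : ℚ) - l) / 2⌉

/-- `m` has the form `C(n,l+1) - t(n-l-1) + C(a,2) + C(b,2) + c` with `1 ≤ t ≤ n-l+1`,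
`a ≥ b ≥ c ≥ 0` and `1 ≤ a+b ≤ t`. -/
def IsForm (n l : ℕ) (m : ℤ) : Prop :=
  ∃ t a b c : ℕ, 1 ≤ t ∧ (t : ℤ) ≤ (n : ℤ) - l + 1 ∧ c ≤ b ∧ b ≤ a ∧ 1 ≤ a + b ∧ a + b ≤ t ∧
    m = n.choose (l + 1) - t * ((n : ℤ) - l - 1) + a.choose 2 + b.choose 2 + c

theorem ceil_half (d : ℕ) : ⌈(d : ℚ) / 2⌉ = ((d + 1) / 2 : ℕ) := by
  obtain ⟨z, hz⟩ : ∃ z, z = (d + 1) / 2 := ⟨_, rfl⟩
  have h1 : 2 * z ≤ d + 1 := by omega
  have h2 : d ≤ 2 * z := by omega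
  rw [← hz, Int.ceil_eq_iff]
  have h1' : 2 * (z : ℚ) ≤ d + 1 := by exact_mod_cast h1
  have h2' : (d : ℚ) ≤ 2 * (z : ℚ) := by exact_mod_cast h2
  rw [Int.cast_natCast]
  constructor
  · linarith
  · linarith

theorem T_eq (l d : ℕ) : T (l + d) l = (l + d).choose (l + 1) - Det.cc d := by
  have e0 : (((l + d : ℕ) : ℚ) - l) / 2 = (d : ℚ) / 2 := by push_cast; ring
  have e1 : (((l + d : ℕ)) : ℤ) - l - 1 = (d : ℤ) - 1 := by push_cast; ring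
  unfold T Det.cc
  rw [e0, ceil_half, e1]

theorem isForm_iff (l d : ℕ) (m : ℤ) : IsForm (l + d) l m ↔
    ∃ t x : ℕ, 1 ≤ t ∧ t ≤ d + 1 ∧ Det.Rep t x ∧
      m = (l + d).choose (l + 1) - t * ((d : ℤ) - 1) + x := by
  have e1 : (((l + d : ℕ)) : ℤ) - l - 1 = (d : ℤ) - 1 := by push_cast; ring
  unfold IsForm Det.Rep
  constructor
  · rintro ⟨t, a, b, c, h1, h2, h3, h4, h5, h6, h7⟩
    refine ⟨t, _, h1, by push_cast at h2; omega, ⟨a, b, c, h3, h4, by omega, h6, rfl⟩, ?_⟩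
    rw [h7, e1]
    push_cast
    ring
  · rintro ⟨t, x, h1, h2, ⟨a, b, c, h3, h4, h5, h6, rfl⟩, h7⟩
    refine ⟨t, a, b, c, h1, by push_cast; omega, h3, h4, by omega, h6, ?_⟩
    rw [h7, e1]
    push_cast
    ring

/-- The integers `m` of the description: `m ≤ T(n,k)`, or `m < C(n,k+1)` has the form, or
`m = C(n,k+1)`. -/
def Desc (n k m : ℕ) : Prop :=
  (m : ℤ) ≤ T n k ∨ (m < n.choose (k + 1) ∧ IsForm n k m) ∨ m = n.choose (k + 1)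

/-- The case `n ≥ 2 l + 1`. -/
theorem main (n l : ℕ) (hl : 2 ≤ l) (hn : 2 * l + 1 ≤ n) :
    ∃ μ : ℕ, IsLeast (S n l) μ ∧ (l = 2 → μ + (n + 1) ^ 2 / 8 = n.choose 2) ∧
      ∀ m : ℕ, μ ≤ m →
        (l ≤ 2 ∨ μ + 4 * l ^ 6 * n ≤ m ∨ n.choose l ≤ m ∨ T n l < m) →
        (m ∈ S n l ↔ Desc n l m) := by
  obtain ⟨d, rfl⟩ : ∃ d, n = l + d := ⟨n - l, by omega⟩
  have hne : (S (l + d) l).Nonempty := ⟨_, Det.top_mem (by omega) (by omega)⟩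
  have hleast : IsLeast (S (l + d) l) (sInf (S (l + d) l)) :=
    ⟨Nat.sInf_mem hne, fun a ha => Nat.sInf_le ha⟩
  refine ⟨sInf (S (l + d) l), hleast, ?_, fun m h1 h2 => ?_⟩
  · rintro rfl
    exact Det.least_two (by omega) hleast
  · unfold Desc
    rw [T_eq, isForm_iff]
    rw [T_eq] at h2
    exact Det.all_det hl (by omega) hleast h1 (by
      rcases h2 with h | h | h | h
      · exact Or.inl (by omega)
      · exact Or.inr (Or.inl h)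
      · exact Or.inr (Or.inr (Or.inl h))
      · exact Or.inr (Or.inr (Or.inr h)))

/-- The whole range `2 ≤ l ≤ ⌈n/2⌉` of the question, with `k = min(l, n-l-1)` (so `k = l` for
`n ≥ 2 l + 1`). `S(n,l)` has a least element `μ`, which is `C(n,2) - ⌊(n+1)²/8⌋` if `k = 2`; and an
integer `m ≥ μ` lies in `S(n,l)` if and only if `m ≤ T(n,k)`, or `m < C(n,k+1)` has the form
`IsForm` for `(n,k)`, or `m = C(n,k+1)`: for all `m ≥ μ` if `k ≤ 2`, and for `k ≥ 3` for all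
`m ≥ μ` except possibly those with `m < μ + 4 k ^ 6 n`, `m < C(n,k)` and `m ≤ T(n,k)`. -/
theorem result (n l k : ℕ) (hl : 2 ≤ l) (hn : 2 * l ≤ n + 1) (hk : k = min l (n - l - 1)) :
    ∃ μ : ℕ, IsLeast (S n l) μ ∧ (k = 2 → μ + (n + 1) ^ 2 / 8 = n.choose 2) ∧
      ∀ m : ℕ, μ ≤ m →
        (k ≤ 2 ∨ μ + 4 * k ^ 6 * n ≤ m ∨ n.choose k ≤ m ∨ T n k < m) →
        (m ∈ S n l ↔ Desc n k m) := by
  have hS : S n l = S n k := by
    rcases le_total l (n - l - 1) with h | h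
    · rw [hk, min_eq_left h]
    · rw [hk, min_eq_right h]
      exact Det.S_dual (by omega)
  rw [hS]
  rcases Nat.lt_or_ge k 2 with hk2 | hk2
  · obtain ⟨d, hd⟩ : ∃ d, n = k + d := ⟨n - k, by omega⟩
    obtain ⟨μ, h1, h2⟩ := Det.tiny_all (l := k) (d := d) (by omega)
    rw [hd]
    refine ⟨μ, h1, fun h => by omega, fun m hm _ => ?_⟩
    unfold Desc
    rw [T_eq, isForm_iff]
    exact h2 m hm
  · exact main n k hk2 (by omega)

end Pool.Agent.Results.MP_0ea01d_co.Determination
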