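import Pool.Agent.Work.MP_0ea01d_co.ThreeBound

set_option autoImplicit false

namespace Pool.Agent.Results.MP_0ea01d_co.IntervalThree

open Pool.Agent.Work.MP_0ea01d_co

/-- Every integer between `(17/27) C(n,3) + 5n²` and `C(n,3)` is the size of a maximal antichain
of `B_n` contained in the levels `3` and `4`. -/
theorem result (n : ℕ) (hn : 5 ≤ n) (m : ℕ)
    (h1 : (17 / 27 : ℚ) * n.choose 3 + 5 * (n : ℚ) ^ 2 ≤ m) (h2 : m ≤ n.choose 3) :
    m ∈ S n 3 := by
  obtain ⟨t, ht, hte⟩ := three_interval n hn ((n.choose 3 : ℤ) - m) (by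
    have : (m : ℤ) ≤ n.choose 3 := by exact_mod_cast h2
    linarith) (by
    have h3 : (17 : ℚ) * n.choose 3 + 135 * (n : ℚ) ^ 2 ≤ 27 * m := by linarith
    have h4 : (17 : ℤ) * n.choose 3 + 135 * (n : ℤ) ^ 2 ≤ 27 * m := by exact_mod_cast h3
    linarith)
  have : m = t := by
    have : (m : ℤ) = t := by rw [hte]; ring
    exact_mod_cast this
  rw [this]
  exact ht

end Pool.Agent.Results.MP_0ea01d_co.IntervalThree
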