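import Pool.Agent.Work.MP_0ea01d_co.ManyAsym

set_option autoImplicit false

namespace Pool.Agent.Results.MP_0ea01d_co.LargeLevels

open Pool.Agent.Work.MP_0ea01d_co Filter

/-- For every `δ > 0` and every sufficiently large `l`, if `n` is large in terms of `l` then every
integer between `(2 + δ) (log l / l) C(n,l)` and `C(n,l)` is the size of a maximal antichain of
`B_n` contained in the levels `l` and `l + 1`. -/
theorem result (δ : ℝ) (hδ : 0 < δ) : ∃ l₀ : ℕ, ∀ l : ℕ, l₀ ≤ l →
    ∀ᶠ n : ℕ in atTop, ∀ m : ℕ,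
      (2 + δ) * (Real.log l / l) * n.choose l ≤ m → m ≤ n.choose l → m ∈ S n l :=
  many_log δ hδ

end Pool.Agent.Results.MP_0ea01d_co.LargeLevels
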