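import Pool.Agent.Work.MP_0ea01d_co.TD.Defs
import Pool.Agent.Work.MP_0ea01d_co.TB.MainB

set_option autoImplicit false

namespace Pool.Agent.Results.MP_0ea01d_co.TuranDensity

open Pool.Agent.Work.MP_0ea01d_co Filter Topology

private theorem noClique_iff {l n : ℕ} {G : Finset (Finset (Fin n))} :
    TD.NoClique l n G ↔ TB.Free l G := by
  constructor
  · rintro ⟨h1, h2⟩
    refine ⟨h1, fun Q hQ => ?_⟩
    by_contra hcon
    push Not at hcon
    apply h2
    refine ⟨Q, hQ, fun e he hec => ?_⟩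
    obtain ⟨y, hyQ, hye⟩ : ∃ y ∈ Q, y ∉ e := by
      by_contra hc
      push Not at hc
      have := Finset.card_le_card (show Q ⊆ e from hc)
      omega
    have : e = Q.erase y := by
      apply Finset.eq_of_subset_of_card_le
      · intro v hv
        rw [Finset.mem_erase]
        refine ⟨?_, he hv⟩
        rintro rfl
        exact hye hv
      · rw [Finset.card_erase_of_mem hyQ, hQ, hec]
        rfl
    rw [this]
    exact hcon y hyQ
  · rintro ⟨h1, h2⟩
    refine ⟨h1, ?_⟩
    rintro ⟨Q, hQ, h3⟩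
    obtain ⟨y, hy, hyG⟩ := h2 Q hQ
    apply hyG
    apply h3 _ (Finset.erase_subset _ _)
    rw [Finset.card_erase_of_mem hy, hQ]
    rfl

private theorem turanNumber_eq (l n : ℕ) : TD.turanNumber l n = TB.ex l n := by
  unfold TD.turanNumber
  obtain ⟨G, hG, hGc⟩ := TB.exists_ex l n
  apply le_antisymm
  · have hne : {k : ℕ | ∃ G : Finset (Finset (Fin n)), TD.NoClique l n G ∧ G.card = k}.Nonempty :=
      ⟨G.card, G, noClique_iff.2 hG, rfl⟩
    apply csSup_le hne
    rintro k ⟨G', hG', rfl⟩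
    exact TB.le_ex (noClique_iff.1 hG')
  · apply le_csSup
    · refine ⟨TB.ex l n, ?_⟩
      rintro k ⟨G', hG', rfl⟩
      exact TB.le_ex (noClique_iff.1 hG')
    · exact ⟨G, noClique_iff.2 hG, hGc⟩

/-- For every `l ≥ 3` the Turan density `t_l` exists, and for every `ε > 0` and all large `n` every
integer `m` with `(l/(l-1) (1 - ((l-1)/l) t_l) + ε) C(n,l) ≤ m ≤ C(n,l)` is the size of a maximal
antichain of `B_n` contained in the levels `l` and `l + 1`. -/
theorem result (l : ℕ) (hl : 3 ≤ l) :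
    Tendsto (fun n : ℕ => (TD.turanNumber l n : ℝ) / n.choose l) atTop (𝓝 (TD.turanDensity l)) ∧
      ∀ ε : ℝ, 0 < ε → ∀ᶠ n : ℕ in atTop, ∀ m : ℕ,
        ((l : ℝ) / (l - 1) * (1 - ((l : ℝ) - 1) / l * TD.turanDensity l) + ε) * n.choose l ≤ m →
          m ≤ n.choose l → m ∈ S n l := by
  obtain ⟨t, -, ht⟩ := TB.ex_tendsto l
  have ht' : Tendsto (fun n : ℕ => (TD.turanNumber l n : ℝ) / n.choose l) atTop (𝓝 t) := by
    simpa only [turanNumber_eq] using ht
  have e : TD.turanDensity l = t := ht'.limUnder_eq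
  rw [e]
  refine ⟨ht', fun ε hε => ?_⟩
  have hl0 : (0 : ℝ) < l := by exact_mod_cast (by omega : 0 < l)
  have hl1 : (0 : ℝ) < (l : ℝ) - 1 := by
    have : (3 : ℝ) ≤ l := by exact_mod_cast hl
    linarith
  have e2 : (l : ℝ) / (l - 1) * (1 - ((l : ℝ) - 1) / l * t) = 1 - t + 1 / ((l : ℝ) - 1) := by
    field_simp
    ring
  rw [e2]
  exact TB.main_b hl ht hε

end Pool.Agent.Results.MP_0ea01d_co.TuranDensity
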